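import Pool.Agent.Q224.MS.Red3
import Pool.Agent.Q224.MS.Tree2

/-!
# The minimum label sum of proper labellings (Q1)

(a) MIN-SUM (given a nice graph `G` and `q` in binary, is `mE(G) ≤ q`?) is NP-complete.
(b) On nice trees `mE` is computable in polynomial time.
-/

set_option autoImplicit false

namespace Pool.Agent.Results.MP_ec274c_lc.NPCompleteAndTrees

open Q224.MS Q224.PL Pool.Agent.NPC

theorem result :
    MinSumComplete ∧
    ∃ g : List Bool → List Bool, PolyTime g ∧ ∀ x : List ℕ × List (ℕ × ℕ),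
      (cG x).IsTree → Nice (cG x) → ∃ n : ℕ, mE (cG x) = (n : ℕ∞) ∧ g (bits x) = bits n :=
  ⟨Q224MS.complete, Q224MS.tree_poly⟩

end Pool.Agent.Results.MP_ec274c_lc.NPCompleteAndTrees
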